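import Pool.Agent.COSB.StmtsL

/-!
# Squad COSB, row BDL: the entries of the isometries are small
-/

set_option autoImplicit false

namespace Pool.Agent.COSB.H43

open Pool.Agent.COSB Matrix

/-- the bilinear form is symmetric -/
theorem bsymm {n : ℕ} {Q : Matrix (Fin n) (Fin n) ℤ} (h : Qᵀ = Q) (x y : Fin n → ℤ) :
    x ⬝ᵥ (Q *ᵥ y) = y ⬝ᵥ (Q *ᵥ x) := by
  rw [Matrix.dotProduct_mulVec, dotProduct_comm, ← Matrix.mulVec_transpose, h]

/-- Cauchy-Schwarz with a unit vector -/
theorem cauchy {n : ℕ} {Q : Matrix (Fin n) (Fin n) ℤ} (h : PosF Q) (u : Fin n → ℤ) (k : Fin n) :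
    (u ᵥ* Q) k ^ 2 ≤ Q k k * (u ⬝ᵥ (Q *ᵥ u)) := by
  set e : Fin n → ℤ := Pi.single k 1 with he
  set c : ℤ := (u ᵥ* Q) k with hc
  have h1 : u ⬝ᵥ (Q *ᵥ e) = c := by
    rw [Matrix.dotProduct_mulVec, he, dotProduct_single_one]
  have h2 : e ⬝ᵥ (Q *ᵥ e) = Q k k := by
    rw [he, single_one_dotProduct, Matrix.mulVec_single_one]
    rfl
  have h3 : e ⬝ᵥ (Q *ᵥ u) = c := by rw [← h1]; exact bsymm h.1 _ _
  have hq : 0 < Q k k := by
    rw [← h2]
    apply h.2
    intro h0
    have := congrFun h0 k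
    rw [he] at this
    simp at this
  have h4 : 0 ≤ (Q k k • u - c • e) ⬝ᵥ (Q *ᵥ (Q k k • u - c • e)) := by
    by_cases h0 : Q k k • u - c • e = 0
    · rw [h0]; simp
    · exact (h.2 _ h0).le
  have h5 : (Q k k • u - c • e) ⬝ᵥ (Q *ᵥ (Q k k • u - c • e)) =
      Q k k * (Q k k * (u ⬝ᵥ (Q *ᵥ u)) - c ^ 2) := by
    rw [Matrix.mulVec_sub, Matrix.mulVec_smul, Matrix.mulVec_smul, dotProduct_sub, sub_dotProduct,
      sub_dotProduct, smul_dotProduct, smul_dotProduct, smul_dotProduct, smul_dotProduct,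
      dotProduct_smul, dotProduct_smul, dotProduct_smul, dotProduct_smul, h1, h2, h3]
    simp only [smul_eq_mul]
    ring
  rw [h5] at h4
  have h6 := nonneg_of_mul_nonneg_right h4 hq
  linarith

/-- the determinant of a positive definite form -/
theorem det_ne {n : ℕ} {Q : Matrix (Fin n) (Fin n) ℤ} (h : PosF Q) : Q.det ≠ 0 := by
  intro h0
  obtain ⟨v, hv, hv0⟩ := Matrix.exists_mulVec_eq_zero_iff.2 h0
  have := h.2 v hv
  rw [hv0, dotProduct_zero] at this
  exact lt_irrefl _ this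

/-- the entries of the adjugate -/
theorem adj_le {n : ℕ} {Q : Matrix (Fin n) (Fin n) ℤ} {b : ℤ} (hb : 1 ≤ b)
    (h : ∀ i j, |Q i j| < b) (k j : Fin n) :
    |Q.adjugate k j| ≤ (n.factorial : ℤ) * b ^ n := by
  rw [Matrix.adjugate_apply]
  have h1 := Matrix.det_le (A := Q.updateRow j (Pi.single k 1)) (abv := AbsoluteValue.abs) (x := b)
    (by
      intro i l
      by_cases hi : i = j
      · subst hi
        rw [Matrix.updateRow_self]
        by_cases hl : l = k
        · subst hl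
          simpa using hb
        · rw [Pi.single_eq_of_ne hl]
          simp
          omega
      · rw [Matrix.updateRow_ne hi]
        exact (h i l).le)
  rw [Fintype.card_fin, nsmul_eq_mul] at h1
  exact h1

/-- row BDL -/
theorem bdl : BdlStmt := by
  intro n w Q Q' hQ hQb hQb' U hU i j
  set b : ℤ := 2 ^ w with hb
  have hb1 : 1 ≤ b := one_le_pow₀ (by norm_num)
  set u : Fin n → ℤ := U.1 i with hu
  -- the value of the form
  have hval : u ⬝ᵥ (Q *ᵥ u) = Q' i i := by
    rw [← hU, Matrix.dotProduct_mulVec, Matrix.mul_apply]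
    rfl
  have hc : ∀ k, |(u ᵥ* Q) k| < b := by
    intro k
    have h1 := cauchy hQ u k
    rw [hval] at h1
    have h2 := (le_abs_self _).trans_lt (hQb k k)
    have h3 := (le_abs_self _).trans_lt (hQb' i i)
    have h4 : 0 < Q k k := by
      have := hQ.2 (Pi.single k 1) (by
        intro h0
        have := congrFun h0 k
        simp at this)
      rw [single_one_dotProduct, Matrix.mulVec_single_one] at this
      exact this
    have h5 : 0 ≤ Q' i i := by
      rw [← hval]
      by_cases h0 : u = 0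
      · rw [h0]; simp
      · exact (hQ.2 _ h0).le
    apply abs_lt_of_sq_lt_sq _ (by omega)
    nlinarith
  -- Cramer
  have hdet : Q.det * u j = ∑ k, (u ᵥ* Q) k * Q.adjugate k j := by
    have h1 : u ᵥ* (Q * Q.adjugate) = Q.det • u := by
      rw [Matrix.mul_adjugate, Matrix.vecMul_smul, Matrix.vecMul_one]
    have h2 := congrFun h1 j
    rw [← Matrix.vecMul_vecMul] at h2
    rw [Pi.smul_apply, smul_eq_mul] at h2
    rw [← h2]
    rfl
  have hd1 : 1 ≤ |Q.det| := Int.one_le_abs (det_ne hQ)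
  have hn : 1 ≤ n := by
    have := i.isLt
    omega
  have h6 : |u j| ≤ (n : ℤ) * (b * ((n.factorial : ℤ) * b ^ n)) := by
    calc |u j| ≤ |Q.det| * |u j| := le_mul_of_one_le_left (abs_nonneg _) hd1
      _ = |∑ k, (u ᵥ* Q) k * Q.adjugate k j| := by rw [← abs_mul, hdet]
      _ ≤ ∑ k, |(u ᵥ* Q) k * Q.adjugate k j| := Finset.abs_sum_le_sum_abs _ _
      _ ≤ ∑ _k : Fin n, b * ((n.factorial : ℤ) * b ^ n) := by
        apply Finset.sum_le_sum
        intro k _
        rw [abs_mul]
        exact mul_le_mul (hc k).le (adj_le hb1 hQb k j) (abs_nonneg _) (by omega)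
      _ = (n : ℤ) * (b * ((n.factorial : ℤ) * b ^ n)) := by
        rw [Finset.sum_const, Finset.card_univ, Fintype.card_fin, nsmul_eq_mul]
  refine lt_of_le_of_lt h6 ?_
  have h7 : (n : ℤ) * n.factorial < 2 ^ (n * (n + 1)) := by
    have h8 : n * n.factorial < 2 ^ (n * (n + 1)) := by
      have h9 : n.factorial ≤ (2 ^ n) ^ n :=
        (Nat.factorial_le_pow n).trans (Nat.pow_le_pow_left (Nat.lt_two_pow_self).le n)
      calc n * n.factorial ≤ n * (2 ^ n) ^ n := Nat.mul_le_mul_left n h9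
        _ < 2 ^ n * (2 ^ n) ^ n := Nat.mul_lt_mul_of_pos_right Nat.lt_two_pow_self (by positivity)
        _ = 2 ^ (n * (n + 1)) := by rw [← pow_mul, ← pow_add]; congr 1; ring
    exact_mod_cast h8
  have h10 : (0 : ℤ) < b ^ (n + 1) := by positivity
  calc (n : ℤ) * (b * ((n.factorial : ℤ) * b ^ n)) = ((n : ℤ) * n.factorial) * b ^ (n + 1) := by
        ring
    _ < 2 ^ (n * (n + 1)) * b ^ (n + 1) := mul_lt_mul_of_pos_right h7 h10
    _ = 2 ^ ((n + 1) * (n + w)) := by
        rw [hb, ← pow_mul, ← pow_add]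
        congr 1
        ring

end Pool.Agent.COSB.H43
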